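import Mathlib
import Pool.Agent.H283.Cheb.Cover

/-!
# MP_eba1ef_gt: unit balls of spaces of polynomials in weighted uniform norms

Let `I` be a closed interval of the real line with more than one point (bounded, a half-line or
the whole line), `w` a continuous positive function on `I` with `w(t) / |t|^n → ∞` for
`|t| → ∞` if `I` is unbounded. Let `K` be the set of all polynomials
`p(t) = x_0 + x_1 t + ... + x_n t^n` with `|p(t)| ≤ w(t)` for all `t` in `I`, that is the unit
ball of the space of the polynomials of degree at most `n` with the norm `sup |p| / w`;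
`K` is a convex body in `ℝ^(n+1)`.

We assume that `w` has no convex corners inside `I`: if two functions touch `w` from below at the
same interior point of `I` and are differentiable there then they have the same derivative. This
is so if `w` is differentiable (`slope_of_differentiable`), or concave, or the minimum of
finitely many differentiable functions.

We prove that `K` is covered by `2^(n+1)` translates of its interior, as the conjecture of Levi
and Hadwiger asks; the same is true for `K + L`, `L` being any set.

Idea of the proof. It suffices to find a set of `2^(n+1)` polynomials `q` such that for every `p`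
in `K` one of them has the same sign as `p` at all the contact points of `p` (the points with
`|p| = w`). Let `T` be the element of `K` of largest leading coefficient. It has `n + 1` contact
points `c_0 < ... < c_n` with alternating signs; we choose each of them as small as possible. By
counting zeros of `T - p` and `T + p` one sees that no `p` in `K` has two contact points of
opposite sign in `[c_j, c_(j+1))`, `1 ≤ j ≤ n` (`c_(n+1) = ∞`), or to the left of `c_1`; here the
assumption on `w` is used when one of the contact points is `c_j` itself, because then `T ∓ p`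
has a double zero at `c_j`. By compactness there are `n` points `z_j`, close to `c_j` and to the
left of it, such that every pair of contact points of opposite signs of every `p` in `K` is
separated by one of them. Then the `2^(n+1)` polynomials `± ∏_{j ∈ S} (t - z_j)` will do.
-/

namespace Pool.Agent.H283.Old.WeightedPolynomialBalls

open Set Filter Topology Pointwise Polynomial
open Pool.Agent.H283.Cheb

/-- The polynomials `p(t) = x_0 + x_1 t + ... + x_n t^n` with `|p(t)| ≤ w(t)` for all `t` in `I`,
as a set of points of `ℝ^(n+1)`. -/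
def unitBall (n : ℕ) (I : Set ℝ) (w : ℝ → ℝ) : Set (EuclideanSpace ℝ (Fin (n + 1))) :=
  {x | ∀ t ∈ I, |∑ i : Fin (n + 1), x i * t ^ (i : ℕ)| ≤ w t}

/-- `w` has no convex corners in the interior of `I`: two functions which touch `w` from below at
an interior point `y` of `I` and are differentiable at `y` have the same derivative at `y`. -/
def NoConvexCorner (I : Set ℝ) (w : ℝ → ℝ) : Prop :=
  ∀ y ∈ interior I, ∀ f g : ℝ → ℝ, DifferentiableAt ℝ f y → DifferentiableAt ℝ g y →
    f y = w y → g y = w y → (∀ᶠ t in 𝓝 y, f t ≤ w t) → (∀ᶠ t in 𝓝 y, g t ≤ w t) →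
    deriv f y = deriv g y

/-- A function that is differentiable in the interior of `I` has no convex corners there. -/
theorem slope_of_differentiable {I : Set ℝ} {w : ℝ → ℝ}
    (h : ∀ y ∈ interior I, DifferentiableAt ℝ w y) : NoConvexCorner I w := by
  have key : ∀ y ∈ interior I, ∀ f : ℝ → ℝ, DifferentiableAt ℝ f y → f y = w y →
      (∀ᶠ t in 𝓝 y, f t ≤ w t) → deriv f y = deriv w y := by
    intro y hy f hf hfy hle
    have hmin : IsLocalMin (fun t => w t - f t) y := by
      filter_upwards [hle] with t ht
      rw [hfy, sub_self]
      linarith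
    have h1 := hmin.deriv_eq_zero
    rw [deriv_fun_sub (h y hy) hf] at h1
    linarith
  intro y hy f g hf hg hfy hgy hf' hg'
  rw [key y hy f hf hfy hf', key y hy g hg hgy hg']

/-- On an unbounded interval only a bounded part of the constraints is active. -/
theorem reduce (n : ℕ) {I : Set ℝ} (hI : IsClosed I) (hI' : I.OrdConnected)
    (hI2 : I.Nontrivial) {w : ℝ → ℝ} (hw : ContinuousOn w I)
    (hgrowth : Tendsto (fun t => w t / |t| ^ n) (cocompact ℝ ⊓ 𝓟 I) atTop) :
    ∃ a b : ℝ, a < b ∧ Icc a b ⊆ I ∧ unitBall n I w = polyBall n a b w := by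
  obtain ⟨a, ha, b, hb, hab⟩ := hI2.exists_lt
  have hsub : Icc a b ⊆ I := hI'.out ha hb
  obtain ⟨M, hM⟩ := (isCompact_polyBall (n := n) hab (hw.mono hsub)).isBounded.exists_norm_le
  have hev := hgrowth.eventually_ge_atTop ((n + 1) * max M 0)
  rw [eventually_inf_principal] at hev
  obtain ⟨R, hR⟩ : ∃ R : ℝ, ∀ t : ℝ, R < |t| → t ∈ I → (n + 1) * max M 0 ≤ w t / |t| ^ n := by
    obtain ⟨s, hs, hs'⟩ := Filter.mem_cocompact.mp hev
    obtain ⟨R, hR⟩ := hs.isBounded.exists_norm_le
    refine ⟨R, fun t ht => ?_⟩
    have : t ∈ sᶜ := fun hts => by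
      have := hR t hts
      rw [Real.norm_eq_abs] at this
      linarith
    exact hs' this
  set R' : ℝ := max (max R 1) (max |a| |b|) with hR'
  have h1 : |a| ≤ R' := (le_max_left _ _).trans (le_max_right _ _)
  have h2 : |b| ≤ R' := (le_max_right _ _).trans (le_max_right _ _)
  have h3 : (1 : ℝ) ≤ R' := (le_max_right _ _).trans (le_max_left _ _)
  have h4 : R ≤ R' := (le_max_left _ _).trans (le_max_left _ _)
  have haJ : a ∈ I ∩ Icc (-R') R' := ⟨ha, abs_le.mp h1⟩
  have hbJ : b ∈ I ∩ Icc (-R') R' := ⟨hb, abs_le.mp h2⟩
  have hJc : IsCompact (I ∩ Icc (-R') R') := isCompact_Icc.inter_left hI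
  have hJo : (I ∩ Icc (-R') R').OrdConnected := hI'.inter ordConnected_Icc
  have hJ : I ∩ Icc (-R') R' = Icc (sInf (I ∩ Icc (-R') R')) (sSup (I ∩ Icc (-R') R')) :=
    eq_Icc_of_connected_compact ⟨⟨a, haJ⟩, hJo.isPreconnected⟩ hJc
  set a' := sInf (I ∩ Icc (-R') R') with ha'
  set b' := sSup (I ∩ Icc (-R') R') with hb'
  have ha1 : a ∈ Icc a' b' := hJ ▸ haJ
  have hb1 : b ∈ Icc a' b' := hJ ▸ hbJ
  refine ⟨a', b', lt_of_le_of_lt ha1.1 (lt_of_lt_of_le hab hb1.2), ?_, ?_⟩
  · rw [← hJ]; exact inter_subset_left
  · ext x
    constructor
    · intro h t ht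
      rw [← hJ] at ht
      exact h t ht.1
    · intro h t ht
      by_cases htR : |t| ≤ R'
      · have : t ∈ Icc a' b' := by rw [← hJ]; exact ⟨ht, abs_le.mp htR⟩
        exact h t this
      · push Not at htR
        have hx : x ∈ polyBall n a b w := by
          intro s hs
          refine h s ?_
          exact ⟨ha1.1.trans hs.1, hs.2.trans hb1.2⟩
        have hxM := hM x hx
        have ht1 : 1 ≤ |t| := by linarith
        have htpos : 0 < |t| ^ n := by positivity
        have hw1 := hR t (by linarith) ht
        rw [le_div_iff₀ htpos] at hw1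
        refine le_trans ?_ hw1
        calc |∑ i : Fin (n + 1), x i * t ^ (i : ℕ)|
            ≤ ∑ i : Fin (n + 1), |x i * t ^ (i : ℕ)| := Finset.abs_sum_le_sum_abs _ _
          _ ≤ ∑ i : Fin (n + 1), max M 0 * |t| ^ n := by
              refine Finset.sum_le_sum fun i _ => ?_
              rw [abs_mul, abs_pow]
              have h5 : |x i| ≤ max M 0 := by
                have := PiLp.norm_apply_le x i
                rw [Real.norm_eq_abs] at this
                exact (this.trans hxM).trans (le_max_left _ _)
              have h6 : |t| ^ (i : ℕ) ≤ |t| ^ n := pow_le_pow_right₀ ht1 (by omega)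
              exact mul_le_mul h5 h6 (by positivity) (le_max_right _ _)
          _ = (n + 1) * max M 0 * |t| ^ n := by
              rw [Finset.sum_const, Finset.card_univ, Fintype.card_fin, nsmul_eq_mul]
              push_cast
              ring

/-- **Theorem.** Let `I` be a closed interval with more than one point, `w` continuous and
positive on `I`, without convex corners in the interior of `I`, and (if `I` is unbounded) with
`w(t) / |t|^n → ∞` for `|t| → ∞` in `I`. The set `K` of the polynomials of degree at most `n`
with `|p| ≤ w` on `I` is a convex body in `ℝ^(n+1)`, and for every set `L` the set `K + L` is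
covered by at most `2^(n+1)` translates of its interior. -/
theorem result (n : ℕ) (I : Set ℝ) (hI : IsClosed I) (hI' : I.OrdConnected)
    (hI2 : I.Nontrivial) (w : ℝ → ℝ) (hw : ContinuousOn w I) (hpos : ∀ t ∈ I, 0 < w t)
    (hgrowth : Tendsto (fun t => w t / |t| ^ n) (cocompact ℝ ⊓ 𝓟 I) atTop)
    (hcorner : NoConvexCorner I w) :
    IsCompact (unitBall n I w) ∧ Convex ℝ (unitBall n I w) ∧
    (interior (unitBall n I w)).Nonempty ∧
    ∀ L : Set (EuclideanSpace ℝ (Fin (n + 1))),
      ∃ T : Finset (EuclideanSpace ℝ (Fin (n + 1))), T.card ≤ 2 ^ (n + 1) ∧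
        unitBall n I w + L ⊆ ⋃ t ∈ T, (fun x => t + x) '' interior (unitBall n I w + L) := by
  obtain ⟨a, b, hab, hsub, hK⟩ := reduce n hI hI' hI2 hw hgrowth
  have hsl : PolySlope w a b := by
    intro y hy f g hf hg hf' hg'
    have hyI : y ∈ interior I := interior_mono hsub (by rw [interior_Icc]; exact hy)
    have hn : Icc a b ∈ 𝓝 y := Icc_mem_nhds hy.1 hy.2
    have h := hcorner y hyI (fun t => f.eval t) (fun t => g.eval t) f.differentiableAt
      g.differentiableAt hf hg (by filter_upwards [hn] with t ht using hf' t ht)
      (by filter_upwards [hn] with t ht using hg' t ht)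
    rwa [Polynomial.deriv, Polynomial.deriv] at h
  obtain ⟨h1, h2, h3, T, hT, hT'⟩ := cover hab (hw.mono hsub)
    (fun t ht => hpos t (hsub ht)) hsl n
  rw [hK]
  exact ⟨h1, h2, h3, fun L => ⟨T, hT, cover_add hT' L⟩⟩

end Pool.Agent.H283.Old.WeightedPolynomialBalls
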